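import Pool.Agent.H418R3.FB.Stmts

/-! Project H418-FB, TaskAna: analytic sets by trees. -/

set_option autoImplicit false
open Set Topology Filter MeasureTheory

namespace Pool.Agent.H600R3.FBAna

open Pool.Agent.H418R3.FB

/-- the cylinder of a list -/
def cyl (s : List ℕ) : Set (ℕ → ℕ) := {x | ∀ i < s.length, x i = s.getD i 0}

theorem cyl_append (s t : List ℕ) : cyl (s ++ t) ⊆ cyl s := by
  intro x hx i hi
  have h := hx i (by rw [List.length_append]; omega)
  rw [h, List.getD_append _ _ _ _ hi]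

theorem seg_length (β : ℕ → ℕ) (n : ℕ) : (seg β n).length = n := by
  simp [seg]

theorem seg_getD (β : ℕ → ℕ) (n i : ℕ) (hi : i < n) : (seg β n).getD i 0 = β i := by
  simp [seg, List.getD_eq_getElem?_getD, hi]

theorem cyl_seg (β : ℕ → ℕ) (n : ℕ) : cyl (seg β n) = PiNat.cylinder β n := by
  ext x
  rw [PiNat.mem_cylinder_iff]
  constructor
  · intro h i hi
    rw [h i (by rwa [seg_length]), seg_getD β n i hi]
  · intro h i hi
    rw [seg_length] at hi
    rw [h i hi, seg_getD β n i hi]

theorem taskAna : TaskAna := by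
  intro Z _ _ B hB
  rw [AnalyticSet] at hB
  rcases hB with rfl | ⟨φ, hφ, rfl⟩
  · refine ⟨fun _ => ∅, fun s => ?_, fun z s t h => ?_, fun z => ?_⟩
    · have : {z : Z | s ∈ (∅ : Set (List ℕ))} = ∅ := by ext; simp
      rw [this]
      exact @MeasurableSet.empty Z (borel Z)
    · exact absurd h (Set.notMem_empty _)
    · constructor
      · intro h; exact absurd h (Set.notMem_empty _)
      · rintro ⟨β, hβ⟩; exact absurd (hβ 0) (Set.notMem_empty _)
  · refine ⟨fun z => {s | z ∈ closure (φ '' cyl s)}, fun s => ?_, fun z s t h => ?_,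
      fun z => ?_⟩
    · letI : MeasurableSpace Z := borel Z
      haveI : BorelSpace Z := ⟨rfl⟩
      exact (isClosed_closure (s := φ '' cyl s)).measurableSet
    · exact closure_mono (image_mono (cyl_append s t)) h
    · constructor
      · rintro ⟨x, rfl⟩
        refine ⟨x, fun n => subset_closure ⟨x, ?_, rfl⟩⟩
        rw [cyl_seg]
        exact PiNat.self_mem_cylinder x n
      · rintro ⟨β, hβ⟩
        refine ⟨β, ?_⟩
        by_contra hne
        obtain ⟨U, V, hU, hV, hzU, hzV, hUV⟩ := t2_separation hne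
        have h1 : φ ⁻¹' U ∈ 𝓝 β := hφ.continuousAt.preimage_mem_nhds (hU.mem_nhds hzU)
        rw [(PiNat.isTopologicalBasis_cylinders (fun _ => ℕ)).mem_nhds_iff] at h1
        obtain ⟨t, ⟨x, n, rfl⟩, hβt, htU⟩ := h1
        have h2 : PiNat.cylinder β n = PiNat.cylinder x n := PiNat.mem_cylinder_iff_eq.1 hβt
        have h3 := hβ n
        rw [Set.mem_ofPred_eq, cyl_seg, h2] at h3
        rw [mem_closure_iff] at h3
        obtain ⟨y, hyV, hy⟩ := h3 V hV hzV
        obtain ⟨x', hx', rfl⟩ := hy
        exact Set.disjoint_left.1 hUV (htU hx') hyV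

end Pool.Agent.H600R3.FBAna
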