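import Mathlib

set_option autoImplicit false

namespace Pool.Agent.H600R3

/-- For symmetric zero-diagonal 3x3 matrices, the product P has (tr P)^2 = 2 tr (P^2). -/
lemma zero_diag_identity (x y z x' y' z' l2 l3 l4 : ℝ)
    (n22 n23 n24 n32 n33 n34 n42 n43 n44 : ℝ)
    (h22 : n22 = (z * l3 * z' + y * l4 * y') * l2)
    (h23 : n23 = (y * l4 * x') * l3)
    (h24 : n24 = (z * l3 * x') * l4)
    (h32 : n32 = (x * l4 * y') * l2)
    (h33 : n33 = (z * l2 * z' + x * l4 * x') * l3)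
    (h34 : n34 = (z * l2 * y') * l4)
    (h42 : n42 = (x * l3 * z') * l2)
    (h43 : n43 = (y * l2 * z') * l3)
    (h44 : n44 = (y * l2 * y' + x * l3 * x') * l4) :
    (n22 + n33 + n44) ^ 2 = 2 * (n22 ^ 2 + n33 ^ 2 + n44 ^ 2 + 2 * n23 * n32 + 2 * n24 * n42
      + 2 * n34 * n43) := by
  subst h22 h23 h24 h32 h33 h34 h42 h43 h44
  ring

/-- Trace computation for I + U diag(2,-l0,-l1) V^T L. -/
lemma trace_identity (l0 l1 l2 l3 l4 : ℝ) (v02 v03 v04 v12 v13 v14 w02 w03 w04 w12 w13 w14 : ℝ)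
    (g00 g01 g02 g10 g20 g11 g12 g21 g22 : ℝ)
    (h00 : l2 + l3 + l4 = g00)
    (h01 : l2 * v02 + l3 * v03 + l4 * v04 = g01)
    (h02 : l2 * v12 + l3 * v13 + l4 * v14 = g02)
    (h10 : l2 * w02 + l3 * w03 + l4 * w04 = g10)
    (h20 : l2 * w12 + l3 * w13 + l4 * w14 = g20)
    (h11 : l2 * w02 * v02 + l3 * w03 * v03 + l4 * w04 * v04 = g11)
    (h12 : l2 * w02 * v12 + l3 * w03 * v13 + l4 * w04 * v14 = g12)
    (h21 : l2 * w12 * v02 + l3 * w13 * v03 + l4 * w14 * v04 = g21)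
    (h22 : l2 * w12 * v12 + l3 * w13 * v13 + l4 * w14 * v14 = g22)
    (n22 n23 n24 n32 n33 n34 n42 n43 n44 : ℝ)
    (k22 : n22 = 1 + (2 - l0 * v02 * w02 - l1 * v12 * w12) * l2)
    (k23 : n23 = (2 - l0 * v02 * w03 - l1 * v12 * w13) * l3)
    (k24 : n24 = (2 - l0 * v02 * w04 - l1 * v12 * w14) * l4)
    (k32 : n32 = (2 - l0 * v03 * w02 - l1 * v13 * w12) * l2)
    (k33 : n33 = 1 + (2 - l0 * v03 * w03 - l1 * v13 * w13) * l3)
    (k34 : n34 = (2 - l0 * v03 * w04 - l1 * v13 * w14) * l4)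
    (k42 : n42 = (2 - l0 * v04 * w02 - l1 * v14 * w12) * l2)
    (k43 : n43 = (2 - l0 * v04 * w03 - l1 * v14 * w13) * l3)
    (k44 : n44 = 1 + (2 - l0 * v04 * w04 - l1 * v14 * w14) * l4) :
    (n22 + n33 + n44 = 3 + (2 * g00 - l0 * g11 - l1 * g22)) ∧
    (n22 ^ 2 + n33 ^ 2 + n44 ^ 2 + 2 * n23 * n32 + 2 * n24 * n42 + 2 * n34 * n43
      = 3 + 2 * (2 * g00 - l0 * g11 - l1 * g22)
        + (4 * g00 ^ 2 + l0 ^ 2 * g11 ^ 2 + l1 ^ 2 * g22 ^ 2
          + 2 * (-2 * l0 * g01 * g10 - 2 * l1 * g02 * g20 + l0 * l1 * g12 * g21))) := by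
  subst h00 h01 h02 h10 h20 h11 h12 h21 h22 k22 k23 k24 k32 k33 k34 k42 k43 k44
  constructor
  · ring
  · ring

/-- The closure identity, scalar form. -/
lemma closure_scalar (E F l0 l1 d0 d1 : ℝ) (h0 : l0 * d0 = 1) (h1 : l1 * d1 = 1)
    (h : (3 + (2 * (-(l0 + l1)) - l0 * (2 + d0 - l1 * E * F) - l1 * (2 + d1 - l0 * E * F))) ^ 2
      = 2 * (3 + 2 * (2 * (-(l0 + l1)) - l0 * (2 + d0 - l1 * E * F) - l1 * (2 + d1 - l0 * E * F))
        + (4 * (-(l0 + l1)) ^ 2 + l0 ^ 2 * (2 + d0 - l1 * E * F) ^ 2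
          + l1 ^ 2 * (2 + d1 - l0 * E * F) ^ 2
          + 2 * (-2 * l0 * (1 - l1 * E) * (1 - l1 * F) - 2 * l1 * (1 - l0 * E) * (1 - l0 * F)
              + l0 * l1 * 2 * 2)))) :
    4 * E * F - 16 * (E + F) + 8 * (d0 + d1) - d0 * d1 = 0 := by
  have hd0 : d0 ≠ 0 := by rintro rfl; simp at h0
  have hd1 : d1 ≠ 0 := by rintro rfl; simp at h1
  have e0 : l0 = 1 / d0 := by field_simp; linarith
  have e1 : l1 = 1 / d1 := by field_simp; linarith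
  have key : 4 * l0 * l1 * E * F - 16 * l0 * l1 * (E + F) + 8 * (l0 + l1) - 1 = 0 := by
    have a0 : l0 * (2 + d0 - l1 * E * F) = 2 * l0 + 1 - l0 * l1 * E * F := by
      linear_combination h0
    have a1 : l1 * (2 + d1 - l0 * E * F) = 2 * l1 + 1 - l0 * l1 * E * F := by
      linear_combination h1
    have b0 : l0 ^ 2 * (2 + d0 - l1 * E * F) ^ 2 = (2 * l0 + 1 - l0 * l1 * E * F) ^ 2 := by
      rw [← a0]; ring
    have b1 : l1 ^ 2 * (2 + d1 - l0 * E * F) ^ 2 = (2 * l1 + 1 - l0 * l1 * E * F) ^ 2 := by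
      rw [← a1]; ring
    rw [b0, b1, a0, a1] at h
    linear_combination h
  rw [e0, e1] at key
  field_simp at key
  linear_combination key

end Pool.Agent.H600R3
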