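import Pool.Agent.H600R3.MaeharaGeo

set_option autoImplicit false

namespace Pool.Agent.H600R3

lemma sqd_self (x : Fin 3 → ℝ) : sqd x x = 0 := by unfold sqd; ring

lemma full_rel (c p : Fin 5 → Fin 3 → ℝ) (d : Fin 5 → ℝ) (hd : ∀ i, d i ≠ 0)
    (h : ∀ i j, i ≠ j → sqd (p i) (c j) = 1) (hdd : ∀ i, sqd (p i) (c i) - 1 = d i) (i j : Fin 5) :
    ∑ k, sqd (c i) (c k) * (d k)⁻¹ * sqd (p k) (p j) = 2 + if i = j then d i else 0 := by
  have h1 := main_rel c p d hd h hdd i j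
  have h2 := row_sum c p d hd h hdd i
  simp only [Fin.sum_univ_five] at h1 h2 ⊢
  linear_combination h1 + 2 * h2

lemma closure_scalar_full
    (l0 l1 l2 l3 l4 d0 d1 d2 d3 d4 : ℝ)
    (E F v02 v03 v04 v12 v13 v14 w02 w03 w04 w12 w13 w14 x y z x' y' z' : ℝ)
    (hl0 : l0 * d0 = 1) (hl1 : l1 * d1 = 1) (hl2 : l2 * d2 = 1) (hl3 : l3 * d3 = 1)
    (hl4 : l4 * d4 = 1)
    (hs : l0 + l1 + l2 + l3 + l4 = 0)
    (hE0 : E * l1 + v02 * l2 + v03 * l3 + v04 * l4 = 1)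
    (hE1 : E * l0 + v12 * l2 + v13 * l3 + v14 * l4 = 1)
    (hF0 : F * l1 + w02 * l2 + w03 * l3 + w04 * l4 = 1)
    (hF1 : F * l0 + w12 * l2 + w13 * l3 + w14 * l4 = 1)
    (r00 : E * l1 * F + v02 * l2 * w02 + v03 * l3 * w03 + v04 * l4 * w04 = 2 + d0)
    (r01 : v02 * l2 * w12 + v03 * l3 * w13 + v04 * l4 * w14 = 2)
    (r10 : v12 * l2 * w02 + v13 * l3 * w03 + v14 * l4 * w04 = 2)
    (r11 : E * l0 * F + v12 * l2 * w12 + v13 * l3 * w13 + v14 * l4 * w14 = 2 + d1)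
    (r22 : v02 * l0 * w02 + v12 * l1 * w12 + z * l3 * z' + y * l4 * y' = 2 + d2)
    (r23 : v02 * l0 * w03 + v12 * l1 * w13 + y * l4 * x' = 2)
    (r24 : v02 * l0 * w04 + v12 * l1 * w14 + z * l3 * x' = 2)
    (r32 : v03 * l0 * w02 + v13 * l1 * w12 + x * l4 * y' = 2)
    (r33 : v03 * l0 * w03 + v13 * l1 * w13 + z * l2 * z' + x * l4 * x' = 2 + d3)
    (r34 : v03 * l0 * w04 + v13 * l1 * w14 + z * l2 * y' = 2)
    (r42 : v04 * l0 * w02 + v14 * l1 * w12 + x * l3 * z' = 2)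
    (r43 : v04 * l0 * w03 + v14 * l1 * w13 + y * l2 * z' = 2)
    (r44 : v04 * l0 * w04 + v14 * l1 * w14 + y * l2 * y' + x * l3 * x' = 2 + d4) :
    4 * E * F - 16 * (E + F) + 8 * (d0 + d1) - d0 * d1 = 0 := by
  have zd := zero_diag_identity x y z x' y' z' l2 l3 l4 _ _ _ _ _ _ _ _ _ rfl rfl rfl rfl rfl rfl
    rfl rfl rfl
  have k22 : (z * l3 * z' + y * l4 * y') * l2 = 1 + (2 - l0 * v02 * w02 - l1 * v12 * w12) * l2 := by
    linear_combination l2 * r22 + hl2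
  have k23 : (y * l4 * x') * l3 = (2 - l0 * v02 * w03 - l1 * v12 * w13) * l3 := by
    linear_combination l3 * r23
  have k24 : (z * l3 * x') * l4 = (2 - l0 * v02 * w04 - l1 * v12 * w14) * l4 := by
    linear_combination l4 * r24
  have k32 : (x * l4 * y') * l2 = (2 - l0 * v03 * w02 - l1 * v13 * w12) * l2 := by
    linear_combination l2 * r32
  have k33 : (z * l2 * z' + x * l4 * x') * l3 = 1 + (2 - l0 * v03 * w03 - l1 * v13 * w13) * l3 := by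
    linear_combination l3 * r33 + hl3
  have k34 : (z * l2 * y') * l4 = (2 - l0 * v03 * w04 - l1 * v13 * w14) * l4 := by
    linear_combination l4 * r34
  have k42 : (x * l3 * z') * l2 = (2 - l0 * v04 * w02 - l1 * v14 * w12) * l2 := by
    linear_combination l2 * r42
  have k43 : (y * l2 * z') * l3 = (2 - l0 * v04 * w03 - l1 * v14 * w13) * l3 := by
    linear_combination l3 * r43
  have k44 : (y * l2 * y' + x * l3 * x') * l4 = 1 + (2 - l0 * v04 * w04 - l1 * v14 * w14) * l4 := by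
    linear_combination l4 * r44 + hl4
  have h00 : l2 + l3 + l4 = -(l0 + l1) := by linear_combination hs
  have h01 : l2 * v02 + l3 * v03 + l4 * v04 = 1 - l1 * E := by linear_combination hE0
  have h02 : l2 * v12 + l3 * v13 + l4 * v14 = 1 - l0 * E := by linear_combination hE1
  have h10 : l2 * w02 + l3 * w03 + l4 * w04 = 1 - l1 * F := by linear_combination hF0
  have h20 : l2 * w12 + l3 * w13 + l4 * w14 = 1 - l0 * F := by linear_combination hF1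
  have h11 : l2 * w02 * v02 + l3 * w03 * v03 + l4 * w04 * v04 = 2 + d0 - l1 * E * F := by
    linear_combination r00
  have h12 : l2 * w02 * v12 + l3 * w03 * v13 + l4 * w04 * v14 = 2 := by
    linear_combination r10
  have h21 : l2 * w12 * v02 + l3 * w13 * v03 + l4 * w14 * v04 = 2 := by
    linear_combination r01
  have h22 : l2 * w12 * v12 + l3 * w13 * v13 + l4 * w14 * v14 = 2 + d1 - l0 * E * F := by
    linear_combination r11
  obtain ⟨t1, t2⟩ := trace_identity l0 l1 l2 l3 l4 v02 v03 v04 v12 v13 v14 w02 w03 w04 w12 w13 w14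
    _ _ _ _ _ _ _ _ _ h00 h01 h02 h10 h20 h11 h12 h21 h22 _ _ _ _ _ _ _ _ _
    k22 k23 k24 k32 k33 k34 k42 k43 k44
  rw [t1, t2] at zd
  exact closure_scalar E F l0 l1 d0 d1 hl0 hl1 zd

lemma closure_id (c p : Fin 5 → Fin 3 → ℝ) (d : Fin 5 → ℝ) (hd : ∀ i, d i ≠ 0)
    (h : ∀ i j, i ≠ j → sqd (p i) (c j) = 1) (hdd : ∀ i, sqd (p i) (c i) - 1 = d i) :
    4 * sqd (c 0) (c 1) * sqd (p 0) (p 1) - 16 * (sqd (c 0) (c 1) + sqd (p 0) (p 1))
      + 8 * (d 0 + d 1) - d 0 * d 1 = 0 := by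
  have R := full_rel c p d hd h hdd
  have S := row_sum c p d hd h hdd
  have S' := row_sum p c d hd (fun i j hij => by rw [sqd_comm]; exact h j i (Ne.symm hij))
    (fun i => by rw [sqd_comm]; exact hdd i)
  have L := lam_sum c p d hd h hdd
  have hl : ∀ i, (d i)⁻¹ * d i = 1 := fun i => inv_mul_cancel₀ (hd i)
  have c10 := sqd_comm (c 1) (c 0)
  have c20 := sqd_comm (c 2) (c 0)
  have c30 := sqd_comm (c 3) (c 0)
  have c40 := sqd_comm (c 4) (c 0)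
  have c21 := sqd_comm (c 2) (c 1)
  have c31 := sqd_comm (c 3) (c 1)
  have c41 := sqd_comm (c 4) (c 1)
  have c32 := sqd_comm (c 3) (c 2)
  have c42 := sqd_comm (c 4) (c 2)
  have c43 := sqd_comm (c 4) (c 3)
  have p10 := sqd_comm (p 1) (p 0)
  have p20 := sqd_comm (p 2) (p 0)
  have p30 := sqd_comm (p 3) (p 0)
  have p40 := sqd_comm (p 4) (p 0)
  have p21 := sqd_comm (p 2) (p 1)
  have p31 := sqd_comm (p 3) (p 1)
  have p41 := sqd_comm (p 4) (p 1)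
  have p32 := sqd_comm (p 3) (p 2)
  have p42 := sqd_comm (p 4) (p 2)
  have p43 := sqd_comm (p 4) (p 3)
  have s0 := S 0
  have s1 := S 1
  have s0' := S' 0
  have s1' := S' 1
  have r00 := R 0 0
  have r01 := R 0 1
  have r10 := R 1 0
  have r11 := R 1 1
  have r22 := R 2 2
  have r23 := R 2 3
  have r24 := R 2 4
  have r32 := R 3 2
  have r33 := R 3 3
  have r34 := R 3 4
  have r42 := R 4 2
  have r43 := R 4 3
  have r44 := R 4 4
  simp only [Fin.sum_univ_five, c10, c20, c30, c40, c21, c31, c41, c32, c42, c43, p10, p20, p30, p40,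
    p21, p31, p41, p32, p42, p43, sqd_self, zero_mul, mul_zero, zero_add, add_zero] at *
  simp only [if_true, Fin.reduceEq, if_false, add_zero] at r00 r01 r10 r11 r22 r23 r24 r32 r33 r34 r42 r43 r44
  refine closure_scalar_full (d 0)⁻¹ (d 1)⁻¹ (d 2)⁻¹ (d 3)⁻¹ (d 4)⁻¹ (d 0) (d 1) (d 2) (d 3) (d 4)
    (sqd (c 0) (c 1)) (sqd (p 0) (p 1))
    (sqd (c 0) (c 2)) (sqd (c 0) (c 3)) (sqd (c 0) (c 4))
    (sqd (c 1) (c 2)) (sqd (c 1) (c 3)) (sqd (c 1) (c 4))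
    (sqd (p 0) (p 2)) (sqd (p 0) (p 3)) (sqd (p 0) (p 4))
    (sqd (p 1) (p 2)) (sqd (p 1) (p 3)) (sqd (p 1) (p 4))
    (sqd (c 3) (c 4)) (sqd (c 2) (c 4)) (sqd (c 2) (c 3))
    (sqd (p 3) (p 4)) (sqd (p 2) (p 4)) (sqd (p 2) (p 3))
    (hl 0) (hl 1) (hl 2) (hl 3) (hl 4) L ?_ ?_ ?_ ?_ ?_ ?_ ?_ ?_ ?_ ?_ ?_ ?_ ?_ ?_ ?_ ?_ ?_
  · linear_combination s0
  · linear_combination s1
  · linear_combination s0'
  · linear_combination s1'
  · linear_combination r00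
  · linear_combination r01
  · linear_combination r10
  · linear_combination r11
  · linear_combination r22
  · linear_combination r23
  · linear_combination r24
  · linear_combination r32
  · linear_combination r33
  · linear_combination r34
  · linear_combination r42
  · linear_combination r43
  · linear_combination r44

/-- product bound -/
lemma prod_bound (a0 a1 a2 b0 b1 b2 v0 v1 v2 : ℝ) (ha : a0 ^ 2 + a1 ^ 2 + a2 ^ 2 = 1)
    (hb : b0 ^ 2 + b1 ^ 2 + b2 ^ 2 = 1) :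
    ((a0 - b0 - v0) ^ 2 + (a1 - b1 - v1) ^ 2 + (a2 - b2 - v2) ^ 2) * (v0 ^ 2 + v1 ^ 2 + v2 ^ 2)
      - 4 * (v0 ^ 2 + v1 ^ 2 + v2 ^ 2) ≤
    ((v0 ^ 2 + v1 ^ 2 + v2 ^ 2) - 2 * (a0 * v0 + a1 * v1 + a2 * v2)) *
      ((v0 ^ 2 + v1 ^ 2 + v2 ^ 2) + 2 * (b0 * v0 + b1 * v1 + b2 * v2)) := by
  have key : ((v0 ^ 2 + v1 ^ 2 + v2 ^ 2) - 2 * (a0 * v0 + a1 * v1 + a2 * v2)) *
      ((v0 ^ 2 + v1 ^ 2 + v2 ^ 2) + 2 * (b0 * v0 + b1 * v1 + b2 * v2))
      - (((a0 - b0 - v0) ^ 2 + (a1 - b1 - v1) ^ 2 + (a2 - b2 - v2) ^ 2) * (v0 ^ 2 + v1 ^ 2 + v2 ^ 2)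
      - 4 * (v0 ^ 2 + v1 ^ 2 + v2 ^ 2))
      = ((a0 + b0) * v1 - (a1 + b1) * v0) ^ 2 + ((a0 + b0) * v2 - (a2 + b2) * v0) ^ 2
        + ((a1 + b1) * v2 - (a2 + b2) * v1) ^ 2
        + ((a0 - b0) * v0 + (a1 - b1) * v1 + (a2 - b2) * v2) ^ 2 := by
    linear_combination (-2) * (v0 ^ 2 + v1 ^ 2 + v2 ^ 2) * ha - 2 * (v0 ^ 2 + v1 ^ 2 + v2 ^ 2) * hb
  have hnn : 0 ≤ ((a0 + b0) * v1 - (a1 + b1) * v0) ^ 2 + ((a0 + b0) * v2 - (a2 + b2) * v0) ^ 2
        + ((a1 + b1) * v2 - (a2 + b2) * v1) ^ 2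
        + ((a0 - b0) * v0 + (a1 - b1) * v1 + (a2 - b2) * v2) ^ 2 := by positivity
  linarith

/-- the contradiction -/
theorem five_false (c p : Fin 5 → Fin 3 → ℝ)
    (hc : c 0 ≠ c 1)
    (h : ∀ i j, i ≠ j → sqd (p i) (c j) = 1) (hd : ∀ i, sqd (p i) (c i) ≠ 1) : False := by
  set d : Fin 5 → ℝ := fun i => sqd (p i) (c i) - 1 with hddef
  have hd' : ∀ i, d i ≠ 0 := fun i => by
    simp only [hddef]; exact sub_ne_zero.mpr (hd i)
  have hcl := closure_id c p d hd' h (fun i => rfl)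
  have sqd_pos : ∀ x y : Fin 3 → ℝ, x ≠ y → 0 < sqd x y := by
    intro x y hxy
    have hnn : 0 ≤ sqd x y := by unfold sqd; positivity
    rcases hnn.lt_or_eq with h1 | h1
    · exact h1
    · exfalso
      apply hxy
      unfold sqd at h1
      have a0 : (x 0 - y 0) ^ 2 = 0 := by nlinarith [sq_nonneg (x 0 - y 0), sq_nonneg (x 1 - y 1), sq_nonneg (x 2 - y 2)]
      have a1 : (x 1 - y 1) ^ 2 = 0 := by nlinarith [sq_nonneg (x 0 - y 0), sq_nonneg (x 1 - y 1), sq_nonneg (x 2 - y 2)]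
      have a2 : (x 2 - y 2) ^ 2 = 0 := by nlinarith [sq_nonneg (x 0 - y 0), sq_nonneg (x 1 - y 1), sq_nonneg (x 2 - y 2)]
      have b0 := pow_eq_zero_iff (two_ne_zero) |>.mp a0
      have b1 := pow_eq_zero_iff (two_ne_zero) |>.mp a1
      have b2 := pow_eq_zero_iff (two_ne_zero) |>.mp a2
      funext i
      fin_cases i
      · simpa using sub_eq_zero.mp b0
      · simpa using sub_eq_zero.mp b1
      · simpa using sub_eq_zero.mp b2
  have pne : ∀ i j, i ≠ j → p i ≠ p j := by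
    intro i j hij hp
    apply hd i
    rw [hp]
    exact h j i (Ne.symm hij)
  have Epos := sqd_pos (c 0) (c 1) hc
  have Fpos := sqd_pos (p 0) (p 1) (pne 0 1 (by decide))
  -- parallelogram law
  have Elt : sqd (c 0) (c 1) < 4 := by
    by_contra hge
    push Not at hge
    have key : ∀ q : Fin 3 → ℝ, sqd q (c 0) = 1 → sqd q (c 1) = 1 →
        (2 * q 0 - c 0 0 - c 1 0) = 0 ∧ (2 * q 1 - c 0 1 - c 1 1) = 0 ∧ (2 * q 2 - c 0 2 - c 1 2) = 0 := by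
      intro q h0 h1
      have e : (2 * q 0 - c 0 0 - c 1 0) ^ 2 + (2 * q 1 - c 0 1 - c 1 1) ^ 2 + (2 * q 2 - c 0 2 - c 1 2) ^ 2
          = 4 - sqd (c 0) (c 1) := by
        unfold sqd at *
        linear_combination 2 * h0 + 2 * h1
      have a0 : (2 * q 0 - c 0 0 - c 1 0) ^ 2 = 0 := by
        nlinarith [sq_nonneg (2 * q 0 - c 0 0 - c 1 0), sq_nonneg (2 * q 1 - c 0 1 - c 1 1), sq_nonneg (2 * q 2 - c 0 2 - c 1 2)]
      have a1 : (2 * q 1 - c 0 1 - c 1 1) ^ 2 = 0 := by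
        nlinarith [sq_nonneg (2 * q 0 - c 0 0 - c 1 0), sq_nonneg (2 * q 1 - c 0 1 - c 1 1), sq_nonneg (2 * q 2 - c 0 2 - c 1 2)]
      have a2 : (2 * q 2 - c 0 2 - c 1 2) ^ 2 = 0 := by
        nlinarith [sq_nonneg (2 * q 0 - c 0 0 - c 1 0), sq_nonneg (2 * q 1 - c 0 1 - c 1 1), sq_nonneg (2 * q 2 - c 0 2 - c 1 2)]
      exact ⟨pow_eq_zero_iff (two_ne_zero) |>.mp a0, pow_eq_zero_iff (two_ne_zero) |>.mp a1,
        pow_eq_zero_iff (two_ne_zero) |>.mp a2⟩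
    obtain ⟨u0, u1, u2⟩ := key (p 2) (h 2 0 (by decide)) (h 2 1 (by decide))
    obtain ⟨w0, w1, w2⟩ := key (p 3) (h 3 0 (by decide)) (h 3 1 (by decide))
    apply pne 2 3 (by decide)
    funext i
    fin_cases i
    · show p 2 0 = p 3 0; linarith
    · show p 2 1 = p 3 1; linarith
    · show p 2 2 = p 3 2; linarith
  have Flt : sqd (p 0) (p 1) < 4 := by
    by_contra hge
    push Not at hge
    have cne : c 2 ≠ c 3 := by
      intro hcc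
      apply hd 2
      rw [hcc]
      exact h 2 3 (by decide)
    have key : ∀ q : Fin 3 → ℝ, sqd (p 0) q = 1 → sqd (p 1) q = 1 →
        (2 * q 0 - p 0 0 - p 1 0) = 0 ∧ (2 * q 1 - p 0 1 - p 1 1) = 0 ∧ (2 * q 2 - p 0 2 - p 1 2) = 0 := by
      intro q h0 h1
      have e : (2 * q 0 - p 0 0 - p 1 0) ^ 2 + (2 * q 1 - p 0 1 - p 1 1) ^ 2 + (2 * q 2 - p 0 2 - p 1 2) ^ 2
          = 4 - sqd (p 0) (p 1) := by
        unfold sqd at *
        linear_combination 2 * h0 + 2 * h1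
      have a0 : (2 * q 0 - p 0 0 - p 1 0) ^ 2 = 0 := by
        nlinarith [sq_nonneg (2 * q 0 - p 0 0 - p 1 0), sq_nonneg (2 * q 1 - p 0 1 - p 1 1), sq_nonneg (2 * q 2 - p 0 2 - p 1 2)]
      have a1 : (2 * q 1 - p 0 1 - p 1 1) ^ 2 = 0 := by
        nlinarith [sq_nonneg (2 * q 0 - p 0 0 - p 1 0), sq_nonneg (2 * q 1 - p 0 1 - p 1 1), sq_nonneg (2 * q 2 - p 0 2 - p 1 2)]
      have a2 : (2 * q 2 - p 0 2 - p 1 2) ^ 2 = 0 := by
        nlinarith [sq_nonneg (2 * q 0 - p 0 0 - p 1 0), sq_nonneg (2 * q 1 - p 0 1 - p 1 1), sq_nonneg (2 * q 2 - p 0 2 - p 1 2)]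
      exact ⟨pow_eq_zero_iff (two_ne_zero) |>.mp a0, pow_eq_zero_iff (two_ne_zero) |>.mp a1,
        pow_eq_zero_iff (two_ne_zero) |>.mp a2⟩
    obtain ⟨u0, u1, u2⟩ := key (c 2) (h 0 2 (by decide)) (h 1 2 (by decide))
    obtain ⟨w0, w1, w2⟩ := key (c 3) (h 0 3 (by decide)) (h 1 3 (by decide))
    apply cne
    funext i
    fin_cases i
    · show c 2 0 = c 3 0; linarith
    · show c 2 1 = c 3 1; linarith
    · show c 2 2 = c 3 2; linarith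
  -- vectors
  have h10 := h 1 0 (by decide)
  have h01 := h 0 1 (by decide)
  obtain ⟨E, hE⟩ : ∃ E, E = sqd (c 0) (c 1) := ⟨_, rfl⟩
  obtain ⟨F, hF⟩ : ∃ F, F = sqd (p 0) (p 1) := ⟨_, rfl⟩
  have hd0 : d 0 = sqd (p 0) (c 0) - 1 := rfl
  have hd1 : d 1 = sqd (p 1) (c 1) - 1 := rfl
  obtain ⟨x0, hx0⟩ : ∃ x0, x0 = d 0 := ⟨_, rfl⟩
  obtain ⟨x1, hx1⟩ : ∃ x1, x1 = d 1 := ⟨_, rfl⟩
  -- -2 u.v = d0 + d1
  have huv : x0 + x1 = -2 * ((c 0 0 - c 1 0) * (p 0 0 - p 1 0) + (c 0 1 - c 1 1) * (p 0 1 - p 1 1)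
      + (c 0 2 - c 1 2) * (p 0 2 - p 1 2)) := by
    rw [hx0, hx1, hd0, hd1]
    unfold sqd at h10 h01 ⊢
    linear_combination h10 + h01
  have hsum : x0 + x1 ≤ E + F := by
    rw [huv, hE, hF]
    unfold sqd
    nlinarith [sq_nonneg ((c 0 0 - c 1 0) + (p 0 0 - p 1 0)), sq_nonneg ((c 0 1 - c 1 1) + (p 0 1 - p 1 1)),
      sq_nonneg ((c 0 2 - c 1 2) + (p 0 2 - p 1 2))]
  have hprod : x0 * x1 ≥ E * F - 4 * F := by
    have ha : (c 0 0 - p 1 0) ^ 2 + (c 0 1 - p 1 1) ^ 2 + (c 0 2 - p 1 2) ^ 2 = 1 := by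
      unfold sqd at h10; linear_combination h10
    have hb : (c 1 0 - p 0 0) ^ 2 + (c 1 1 - p 0 1) ^ 2 + (c 1 2 - p 0 2) ^ 2 = 1 := by
      unfold sqd at h01; linear_combination h01
    have pb := prod_bound _ _ _ _ _ _ (p 0 0 - p 1 0) (p 0 1 - p 1 1) (p 0 2 - p 1 2) ha hb
    have e0 : x0 = ((p 0 0 - p 1 0) ^ 2 + (p 0 1 - p 1 1) ^ 2 + (p 0 2 - p 1 2) ^ 2)
      - 2 * ((c 0 0 - p 1 0) * (p 0 0 - p 1 0) + (c 0 1 - p 1 1) * (p 0 1 - p 1 1)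
        + (c 0 2 - p 1 2) * (p 0 2 - p 1 2)) := by
      rw [hx0, hd0]; unfold sqd; linear_combination ha
    have e1 : x1 = ((p 0 0 - p 1 0) ^ 2 + (p 0 1 - p 1 1) ^ 2 + (p 0 2 - p 1 2) ^ 2)
      + 2 * ((c 1 0 - p 0 0) * (p 0 0 - p 1 0) + (c 1 1 - p 0 1) * (p 0 1 - p 1 1)
        + (c 1 2 - p 0 2) * (p 0 2 - p 1 2)) := by
      rw [hx1, hd1]; unfold sqd; linear_combination hb
    rw [e0, e1, hE, hF]
    unfold sqd
    linarith
  have hprod' : x0 * x1 ≥ E * F - 4 * E := by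
    have ha : (p 0 0 - c 1 0) ^ 2 + (p 0 1 - c 1 1) ^ 2 + (p 0 2 - c 1 2) ^ 2 = 1 := by
      unfold sqd at h01; linear_combination h01
    have hb : (p 1 0 - c 0 0) ^ 2 + (p 1 1 - c 0 1) ^ 2 + (p 1 2 - c 0 2) ^ 2 = 1 := by
      unfold sqd at h10; linear_combination h10
    have pb := prod_bound _ _ _ _ _ _ (c 0 0 - c 1 0) (c 0 1 - c 1 1) (c 0 2 - c 1 2) ha hb
    have e0 : x0 = ((c 0 0 - c 1 0) ^ 2 + (c 0 1 - c 1 1) ^ 2 + (c 0 2 - c 1 2) ^ 2)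
      - 2 * ((p 0 0 - c 1 0) * (c 0 0 - c 1 0) + (p 0 1 - c 1 1) * (c 0 1 - c 1 1)
        + (p 0 2 - c 1 2) * (c 0 2 - c 1 2)) := by
      rw [hx0, hd0]; unfold sqd; linear_combination ha
    have e1 : x1 = ((c 0 0 - c 1 0) ^ 2 + (c 0 1 - c 1 1) ^ 2 + (c 0 2 - c 1 2) ^ 2)
      + 2 * ((p 1 0 - c 0 0) * (c 0 0 - c 1 0) + (p 1 1 - c 0 1) * (c 0 1 - c 1 1)
        + (p 1 2 - c 0 2) * (c 0 2 - c 1 2)) := by
      rw [hx1, hd1]; unfold sqd; linear_combination hb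
    rw [e0, e1, hE, hF]
    unfold sqd
    linarith
  rw [← hE, ← hF, ← hx0, ← hx1] at hcl
  rw [← hE] at Epos Elt
  rw [← hF] at Fpos Flt
  rcases le_total E F with hle | hle
  · nlinarith [mul_pos Epos (sub_pos.mpr Flt)]
  · nlinarith [mul_pos Fpos (sub_pos.mpr Elt)]

end Pool.Agent.H600R3
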