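import Pool.Agent.H600R3.MaeharaAlg

set_option autoImplicit false

namespace Pool.Agent.H600R3

open Matrix

/-- squared distance in coordinates -/
def sqd (x y : Fin 3 → ℝ) : ℝ := (x 0 - y 0) ^ 2 + (x 1 - y 1) ^ 2 + (x 2 - y 2) ^ 2

lemma sqd_comm (x y : Fin 3 → ℝ) : sqd x y = sqd y x := by unfold sqd; ring

/-- rows for the centres of spheres -/
def Amat (p : Fin 5 → Fin 3 → ℝ) : Matrix (Fin 5) (Fin 5) ℝ :=
  fun i => ![p i 0 ^ 2 + p i 1 ^ 2 + p i 2 ^ 2 - 1, 1, -2 * p i 0, -2 * p i 1, -2 * p i 2]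

def Bmat (c : Fin 5 → Fin 3 → ℝ) : Matrix (Fin 5) (Fin 5) ℝ :=
  fun i => ![1, c i 0 ^ 2 + c i 1 ^ 2 + c i 2 ^ 2, c i 0, c i 1, c i 2]

lemma AB_apply (c p : Fin 5 → Fin 3 → ℝ) (i j : Fin 5) :
    (Amat p * (Bmat c)ᵀ) i j = sqd (p i) (c j) - 1 := by
  simp [Matrix.mul_apply, Fin.sum_univ_five, Amat, Bmat, sqd]
  ring

lemma moments (c p : Fin 5 → Fin 3 → ℝ) (d : Fin 5 → ℝ) (hd : ∀ i, d i ≠ 0)
    (h : ∀ i j, i ≠ j → sqd (p i) (c j) = 1) (hdd : ∀ i, sqd (p i) (c i) - 1 = d i) :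
    (Bmat c)ᵀ * (Matrix.diagonal fun i => (d i)⁻¹) * Amat p = 1 := by
  have h1 : Amat p * (Bmat c)ᵀ = Matrix.diagonal d := by
    ext i j
    rw [AB_apply]
    by_cases hij : i = j
    · subst hij
      rw [hdd, Matrix.diagonal_apply_eq]
    · rw [h i j hij, Matrix.diagonal_apply_ne _ hij]; ring
  have h2 : Amat p * ((Bmat c)ᵀ * (Matrix.diagonal fun i => (d i)⁻¹)) = 1 := by
    rw [← Matrix.mul_assoc, h1, Matrix.diagonal_mul_diagonal]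
    ext i j
    by_cases hij : i = j
    · subst hij
      simp [hd i]
    · simp [hij]
  exact mul_eq_one_comm.mp h2

def Qmat : Matrix (Fin 5) (Fin 5) ℝ :=
  !![0, 1, 0, 0, 0; 1, 0, 0, 0, 0; 0, 0, -2, 0, 0; 0, 0, 0, -2, 0; 0, 0, 0, 0, -2]

noncomputable def Qinv : Matrix (Fin 5) (Fin 5) ℝ :=
  !![0, 1, 0, 0, 0; 1, 0, 0, 0, 0; 0, 0, -1/2, 0, 0; 0, 0, 0, -1/2, 0; 0, 0, 0, 0, -1/2]

lemma Q_mul_Qinv : Qmat * Qinv = 1 := by
  ext i j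
  fin_cases i <;> fin_cases j <;> simp [Qmat, Qinv, Matrix.mul_apply, Fin.sum_univ_five] <;> norm_num

lemma E_eq (c : Fin 5 → Fin 3 → ℝ) (i j : Fin 5) :
    (Bmat c * Qmat * (Bmat c)ᵀ) i j = sqd (c i) (c j) := by
  simp [Matrix.mul_apply, Fin.sum_univ_five, Bmat, Qmat, sqd]
  ring

lemma F_eq (p : Fin 5 → Fin 3 → ℝ) (i j : Fin 5) :
    (Amat p * Qinv * (Amat p)ᵀ) i j = sqd (p i) (p j) - 2 := by
  simp [Matrix.mul_apply, Fin.sum_univ_five, Amat, Qinv, sqd]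
  ring

lemma main_rel (c p : Fin 5 → Fin 3 → ℝ) (d : Fin 5 → ℝ) (hd : ∀ i, d i ≠ 0)
    (h : ∀ i j, i ≠ j → sqd (p i) (c j) = 1) (hdd : ∀ i, sqd (p i) (c i) - 1 = d i) (i j : Fin 5) :
    ∑ k, sqd (c i) (c k) * (d k)⁻¹ * (sqd (p k) (p j) - 2) = if i = j then d i else 0 := by
  have hm := moments c p d hd h hdd
  have key : (Bmat c * Qmat * (Bmat c)ᵀ) * (Matrix.diagonal fun i => (d i)⁻¹)
      * (Amat p * Qinv * (Amat p)ᵀ) = (Amat p * (Bmat c)ᵀ)ᵀ := by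
    calc (Bmat c * Qmat * (Bmat c)ᵀ) * (Matrix.diagonal fun i => (d i)⁻¹)
      * (Amat p * Qinv * (Amat p)ᵀ)
        = Bmat c * Qmat * ((Bmat c)ᵀ * (Matrix.diagonal fun i => (d i)⁻¹)
      * Amat p) * Qinv * (Amat p)ᵀ := by simp only [Matrix.mul_assoc]
      _ = Bmat c * (Qmat * Qinv) * (Amat p)ᵀ := by rw [hm]; simp only [Matrix.mul_assoc, Matrix.one_mul]
      _ = Bmat c * (Amat p)ᵀ := by rw [Q_mul_Qinv, Matrix.mul_one]
      _ = _ := by rw [Matrix.transpose_mul, Matrix.transpose_transpose]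
  have := congrFun (congrFun key i) j
  rw [Matrix.mul_apply] at this
  simp only [Matrix.mul_diagonal, E_eq, F_eq, Matrix.transpose_apply, AB_apply] at this
  rw [this]
  by_cases hij : i = j
  · subst hij; rw [if_pos rfl, hdd]
  · rw [if_neg hij, h j i (Ne.symm hij)]; ring

lemma row_sum (c p : Fin 5 → Fin 3 → ℝ) (d : Fin 5 → ℝ) (hd : ∀ i, d i ≠ 0)
    (h : ∀ i j, i ≠ j → sqd (p i) (c j) = 1) (hdd : ∀ i, sqd (p i) (c i) - 1 = d i) (i : Fin 5) :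
    ∑ k, sqd (c i) (c k) * (d k)⁻¹ = 1 := by
  have hm := moments c p d hd h hdd
  have e : ∀ a : Fin 5, ((Bmat c)ᵀ * (Matrix.diagonal fun i => (d i)⁻¹) * Amat p) a 1 =
      (1 : Matrix (Fin 5) (Fin 5) ℝ) a 1 := fun a => by rw [hm]
  have e0 := e 0
  have e1 := e 1
  have e2 := e 2
  have e3 := e 3
  have e4 := e 4
  simp [Matrix.mul_apply, Fin.sum_univ_five, Bmat, Amat] at e0 e1 e2 e3 e4
  simp [Fin.sum_univ_five, sqd]
  linear_combination (c i 0 ^ 2 + c i 1 ^ 2 + c i 2 ^ 2) * e0 + e1 - 2 * c i 0 * e2 - 2 * c i 1 * e3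
    - 2 * c i 2 * e4

lemma lam_sum (c p : Fin 5 → Fin 3 → ℝ) (d : Fin 5 → ℝ) (hd : ∀ i, d i ≠ 0)
    (h : ∀ i j, i ≠ j → sqd (p i) (c j) = 1) (hdd : ∀ i, sqd (p i) (c i) - 1 = d i) :
    ∑ k, (d k)⁻¹ = 0 := by
  have hm := moments c p d hd h hdd
  have e0 : ((Bmat c)ᵀ * (Matrix.diagonal fun i => (d i)⁻¹) * Amat p) 0 1 =
      (1 : Matrix (Fin 5) (Fin 5) ℝ) 0 1 := by rw [hm]
  simp [Matrix.mul_apply, Fin.sum_univ_five, Bmat, Amat] at e0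
  simp [Fin.sum_univ_five]
  linear_combination e0

end Pool.Agent.H600R3
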