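import Pool.Agent.H862R3.Prim.Stmts

/-! Project PRIMVAR, task P: finite `q`-groups in the variety are abelian. -/

set_option autoImplicit false

namespace Pool.Agent.H600R3.PVP

open Pool.Agent.H862R3.Prim

theorem laws_subgroup {W : Set (FreeGroup ℕ)} {G : Type} [Group G] (h : Laws W G)
    (H : Subgroup G) : Laws W H := by
  intro w hw f
  apply H.subtype_injective
  rw [map_one]
  have h1 := h w hw (fun n => (f n : G))
  have h2 : (FreeGroup.lift (fun n => (f n : G))) = H.subtype.comp (FreeGroup.lift f) := by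
    ext n
    simp
  rw [h2] at h1
  exact h1

theorem taskP : TaskP := by
  intro W hC G _ _ hW q hq Q hQ
  by_contra hcon
  haveI : Fact q.Prime := ⟨hq⟩
  obtain ⟨H, hH, hmin⟩ := WellFounded.has_min (wellFounded_lt (α := Subgroup G))
    {H : Subgroup G | H ≤ Q ∧ ¬ Comm H} ⟨Q, le_refl Q, hcon⟩
  obtain ⟨hHQ, hHc⟩ := hH
  have hMin : MinNonab H := by
    refine ⟨fun hab => hHc ?_, fun K hK x hx y hy => ?_⟩
    · intro x hx y hy
      exact congrArg Subtype.val (hab ⟨x, hx⟩ ⟨y, hy⟩)
    · by_contra hne
      have hle : K.map H.subtype ≤ H := by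
        rintro _ ⟨z, _, rfl⟩
        exact z.2
      have hlt : K.map H.subtype < H := by
        refine lt_of_le_of_ne hle fun heq => hK ?_
        rw [eq_top_iff]
        intro z _
        have hz : (z : G) ∈ K.map H.subtype := by
          rw [heq]
          exact z.2
        obtain ⟨z', hz', hzz⟩ := hz
        have : z' = z := Subtype.ext hzz
        rwa [← this]
      refine hmin (K.map H.subtype) ⟨hle.trans hHQ, fun hc => hne ?_⟩ hlt
      apply Subtype.ext
      exact hc (x : G) ⟨x, hx, rfl⟩ (y : G) ⟨y, hy, rfl⟩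
  have hZ := hC H (laws_subgroup hW H) hMin
  have hp : IsPGroup q H := by
    intro x
    obtain ⟨k, hk⟩ := hQ x (hHQ x.2)
    refine ⟨k, Subtype.ext ?_⟩
    simpa using hk
  haveI : Nontrivial H := by
    by_contra hnt
    rw [not_nontrivial_iff_subsingleton] at hnt
    exact hMin.1 fun x y => Subsingleton.elim _ _
  haveI := hp.center_nontrivial
  exact (Subgroup.nontrivial_iff_ne_bot _).1 this hZ

end Pool.Agent.H600R3.PVP
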