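import Mathlib
import Pool.Agent.H902R3.PZ.Stmts

/-!
# Task G2 of `MP_995735_nt` : the constant of the polar term does not vanish
-/

set_option autoImplicit false
open MeasureTheory Set Filter Topology

namespace Pool.Agent.H600R3.PZG2

theorem lap_meas (a r : ℂ) : AEStronglyMeasurable
    (fun t : ℝ => (t : ℂ) ^ (a - 1) * Complex.exp (-(r * (t : ℂ)))) (volume.restrict (Set.Ioi 0)) := by
  apply ContinuousOn.aestronglyMeasurable _ measurableSet_Ioi
  refine ContinuousOn.mul ?_ (by fun_prop)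
  intro s hs
  refine ContinuousAt.continuousWithinAt ?_
  exact (Complex.continuousAt_ofReal_cpow_const s _ (Or.inr (ne_of_gt hs)))

theorem lap_int (a : ℂ) (ha : 0 < a.re) (r : ℂ) (hr : 0 < r.re) :
    IntegrableOn (fun t : ℝ => (t : ℂ) ^ (a - 1) * Complex.exp (-(r * (t : ℂ)))) (Set.Ioi 0) := by
  have h0 : IntegrableOn (fun s : ℝ => s ^ (a.re - 1) * Real.exp (-r.re * s ^ (1:ℝ)))
      (Set.Ioi 0) :=
    integrableOn_rpow_mul_exp_neg_mul_rpow (by linarith) one_pos hr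
  refine Integrable.mono' h0 (lap_meas a r) ?_
  refine (ae_restrict_iff' measurableSet_Ioi).2 (Eventually.of_forall fun s hs => ?_)
  rw [norm_mul, Complex.norm_exp, Complex.norm_cpow_eq_rpow_re_of_pos hs, Real.rpow_one]
  apply le_of_eq
  simp

theorem lap_diff (a : ℂ) (ha : 0 < a.re) (r : ℂ) (hr : 0 < r.re) :
    DifferentiableAt ℂ (fun r : ℂ => ∫ t in Set.Ioi (0:ℝ),
      (t : ℂ) ^ (a - 1) * Complex.exp (-(r * (t : ℂ)))) r := by
  have h0 : IntegrableOn (fun s : ℝ => s ^ (a.re) * Real.exp (-(r.re / 2) * s ^ (1:ℝ)))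
      (Set.Ioi 0) :=
    integrableOn_rpow_mul_exp_neg_mul_rpow (by linarith) one_pos (by linarith)
  have key := hasDerivAt_integral_of_dominated_loc_of_deriv_le
    (μ := (volume : Measure ℝ).restrict (Set.Ioi 0)) (x₀ := r)
    (F := fun (r : ℂ) (t : ℝ) => (t : ℂ) ^ (a - 1) * Complex.exp (-(r * (t : ℂ))))
    (F' := fun (r : ℂ) (t : ℝ) => (t : ℂ) ^ (a - 1) * (Complex.exp (-(r * (t : ℂ))) * (-(t : ℂ))))
    (bound := fun t => t ^ (a.re) * Real.exp (-(r.re / 2) * t ^ (1:ℝ)))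
    (s := Metric.ball r (r.re / 2)) (Metric.ball_mem_nhds r (by linarith))
    (Eventually.of_forall fun x => lap_meas a x) (lap_int a ha r hr) ?_ ?_ h0 ?_
  · exact key.2.differentiableAt
  · have h1 := (lap_meas a r).mul (g := fun t : ℝ => (-(t : ℂ))) (by fun_prop)
    refine h1.congr (Eventually.of_forall fun t => ?_)
    show (t : ℂ) ^ (a - 1) * Complex.exp (-(r * (t : ℂ))) * (-(t : ℂ)) = _
    ring
  · refine (ae_restrict_iff' measurableSet_Ioi).2 (Eventually.of_forall fun s hs => ?_)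
    intro x hx
    have hs' : 0 < s := hs
    have hx1 : r.re / 2 < x.re := by
      have h1 : |(x - r).re| < r.re / 2 := by
        refine (Complex.abs_re_le_norm _).trans_lt ?_
        rw [Metric.mem_ball, dist_eq_norm] at hx
        exact hx
      rw [Complex.sub_re] at h1
      have := (abs_lt.1 h1).1
      linarith
    rw [norm_mul, norm_mul, Complex.norm_exp, Complex.norm_cpow_eq_rpow_re_of_pos hs, Real.rpow_one,
      norm_neg, Complex.norm_real, Real.norm_eq_abs, abs_of_pos hs']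
    have h2 : (-(x * (s : ℂ))).re = -(x.re * s) := by
      rw [Complex.neg_re, Complex.re_mul_ofReal]
    rw [h2, Complex.sub_re, Complex.one_re]
    have h3 : s ^ (a.re) = s ^ (a.re - 1) * s := by
      rw [Real.rpow_sub_one hs'.ne']
      field_simp
    rw [h3]
    have h4 : Real.exp (-(x.re * s)) ≤ Real.exp (-(r.re / 2) * s) := by
      apply Real.exp_le_exp.2
      nlinarith
    calc s ^ (a.re - 1) * (Real.exp (-(x.re * s)) * s)
        = s ^ (a.re - 1) * s * Real.exp (-(x.re * s)) := by ring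
      _ ≤ s ^ (a.re - 1) * s * Real.exp (-(r.re / 2) * s) :=
          mul_le_mul_of_nonneg_left h4 (by positivity)
  · refine Eventually.of_forall fun t x _ => ?_
    have h5 : HasDerivAt (fun r : ℂ => -(r * (t : ℂ))) (-(t : ℂ)) x := by
      have h6 : HasDerivAt (fun r : ℂ => r * (t : ℂ)) (t : ℂ) x := by
        simpa using (hasDerivAt_id x).mul_const (t : ℂ)
      exact h6.neg
    exact (h5.cexp).const_mul _

theorem lap_val (a : ℂ) (ha : 0 < a.re) (r : ℂ) (hr : 0 < r.re) :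
    ∫ t in Set.Ioi (0:ℝ), (t : ℂ) ^ (a - 1) * Complex.exp (-(r * (t : ℂ))) =
      (1 / r) ^ a * Complex.Gamma a := by
  have hopen : IsOpen {r : ℂ | 0 < r.re} := isOpen_lt continuous_const Complex.continuous_re
  have hconv : Convex ℝ {r : ℂ | 0 < r.re} := convex_halfSpace_re_gt 0
  have hf : AnalyticOnNhd ℂ (fun r : ℂ => ∫ t in Set.Ioi (0:ℝ),
      (t : ℂ) ^ (a - 1) * Complex.exp (-(r * (t : ℂ)))) {r : ℂ | 0 < r.re} :=
    DifferentiableOn.analyticOnNhd (fun x hx => (lap_diff a ha x hx).differentiableWithinAt) hopen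
  have hg : AnalyticOnNhd ℂ (fun r : ℂ => (1 / r) ^ a * Complex.Gamma a) {r : ℂ | 0 < r.re} := by
    refine DifferentiableOn.analyticOnNhd (fun x hx => ?_) hopen
    have hx' : 0 < x.re := hx
    have hx0 : x ≠ 0 := by
      rintro rfl
      simp at hx'
    refine DifferentiableAt.differentiableWithinAt ?_
    refine DifferentiableAt.mul_const ?_ _
    refine DifferentiableAt.cpow_const ?_ ?_
    · exact (differentiableAt_const (1:ℂ)).div differentiableAt_fun_id hx0
    · rw [one_div]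
      left
      rw [Complex.inv_re]
      exact div_pos hx' (Complex.normSq_pos.2 hx0)
  refine hf.eqOn_of_preconnected_of_frequently_eq hg hconv.isPreconnected (z₀ := 1) (by simp) ?_ hr
  have hreal : ∀ x : ℝ, 0 < x → (∫ t in Set.Ioi (0:ℝ),
      (t : ℂ) ^ (a - 1) * Complex.exp (-((x : ℂ) * (t : ℂ)))) = (1 / (x : ℂ)) ^ a * Complex.Gamma a :=
    fun x hx => Complex.integral_cpow_mul_exp_neg_mul_Ioi ha hx
  have hseq : Tendsto (fun n : ℕ => ((1 + 1 / ((n : ℝ) + 1) : ℝ) : ℂ)) atTop (𝓝[≠] 1) := by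
    refine tendsto_nhdsWithin_iff.2 ⟨?_, Eventually.of_forall fun n => ?_⟩
    · have h1 : Tendsto (fun n : ℕ => (1 + 1 / ((n : ℝ) + 1) : ℝ)) atTop (𝓝 (1 + 0)) :=
        tendsto_const_nhds.add tendsto_one_div_add_atTop_nhds_zero_nat
      rw [add_zero] at h1
      have h2 := (Complex.continuous_ofReal.tendsto 1).comp h1
      rw [Complex.ofReal_one] at h2
      exact h2
    · intro h
      have h1 : (1 + 1 / ((n : ℝ) + 1) : ℝ) = 1 := by
        exact_mod_cast (Set.mem_singleton_iff.1 h)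
      have h2 : (0:ℝ) < 1 / ((n : ℝ) + 1) := by positivity
      linarith
  refine hseq.frequently (Frequently.of_forall fun n => ?_)
  exact hreal _ (by positivity)


open Complex in
/-- the Beta type integral with a complex shift -/
theorem J_formula (m : ℕ) (L : ℝ) (τ : ℂ) (hτ : 0 < τ.re) :
    ∫ y in Ioi (0:ℝ), (y : ℂ) ^ (((m : ℂ) + 1 + L * I) - 1) * (1 / (τ + y) ^ (2 * m + 2)) =
      Gamma ((m : ℂ) + 1 + L * I) * Gamma ((m : ℂ) + 1 - L * I) / Gamma ((2 * m + 2 : ℕ) : ℂ) *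
        (1 / τ) ^ ((m : ℂ) + 1 - L * I) := by
  set a : ℂ := (m : ℂ) + 1 + L * I with ha
  set b : ℂ := (m : ℂ) + 1 - L * I with hb
  set k : ℂ := ((2 * m + 2 : ℕ) : ℂ) with hk
  have hare : a.re = m + 1 := by simp [ha]
  have hbre : b.re = m + 1 := by simp [hb]
  have hkre : k.re = 2 * m + 2 := by simp [hk]
  have hkab : k = a + b := by
    rw [hk, ha, hb]; push_cast; ring
  have ha0 : 0 < a.re := by rw [hare]; positivity
  have hb0 : 0 < b.re := by rw [hbre]; positivity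
  have hk0 : 0 < k.re := by rw [hkre]; positivity
  have hGk : Gamma k ≠ 0 := by
    apply Gamma_ne_zero_of_re_pos hk0
  -- the kernel
  let F : ℝ → ℝ → ℂ := fun y s => (y : ℂ) ^ (a - 1) * ((s : ℂ) ^ (k - 1) * exp (-((τ + y) * s)))
  have hFmeas : AEStronglyMeasurable (Function.uncurry F)
      ((volume.restrict (Ioi (0:ℝ))).prod (volume.restrict (Ioi (0:ℝ)))) := by
    apply Measurable.aestronglyMeasurable
    apply Measurable.mul
    · exact (Complex.measurable_ofReal.comp measurable_fst).pow_const _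
    · apply Measurable.mul
      · exact (Complex.measurable_ofReal.comp measurable_snd).pow_const _
      · fun_prop
  have hFint : Integrable (Function.uncurry F)
      ((volume.restrict (Ioi (0:ℝ))).prod (volume.restrict (Ioi (0:ℝ)))) := by
    rw [integrable_prod_iff' hFmeas]
    constructor
    · refine (ae_restrict_iff' measurableSet_Ioi).2 (Eventually.of_forall fun s hs => ?_)
      have hs' : 0 < s := hs
      have h1 := (lap_int a ha0 (s : ℂ) (by simpa using hs')).const_mul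
        ((s : ℂ) ^ (k - 1) * exp (-(τ * s)))
      refine h1.congr (Eventually.of_forall fun y => ?_)
      simp only [Function.uncurry, F]
      rw [show -((τ + (y : ℂ)) * (s : ℂ)) = -(τ * s) + -(s * y) by ring, Complex.exp_add]
      ring
    · have h2 : IntegrableOn (fun s : ℝ => Real.Gamma (m + 1) * (s ^ (m : ℝ) * Real.exp (-τ.re * s ^ (1:ℝ))))
          (Ioi 0) :=
        (integrableOn_rpow_mul_exp_neg_mul_rpow (s := (m : ℝ))
          (by have : (0:ℝ) ≤ m := Nat.cast_nonneg m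
              linarith) one_pos hτ).const_mul _
      refine h2.congr_fun (fun s hs => ?_) measurableSet_Ioi
      have hs' : 0 < s := hs
      have h3 : ∀ y ∈ Ioi (0:ℝ), ‖Function.uncurry F (y, s)‖ =
          (s ^ (2 * (m : ℝ) + 1) * Real.exp (-(τ.re * s))) * (y ^ (((m : ℝ) + 1) - 1) * Real.exp (-(s * y))) := by
        intro y hy
        have hy' : 0 < y := hy
        simp only [Function.uncurry, F]
        rw [norm_mul, norm_mul, Complex.norm_exp, Complex.norm_cpow_eq_rpow_re_of_pos hy',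
          Complex.norm_cpow_eq_rpow_re_of_pos hs']
        have e1 : (a - 1).re = ((m : ℝ) + 1) - 1 := by simp [hare]
        have e2 : (k - 1).re = 2 * (m : ℝ) + 1 := by
          rw [Complex.sub_re, hkre, Complex.one_re]; ring
        have e3 : (-((τ + (y : ℂ)) * (s : ℂ))).re = -(τ.re * s) + -(s * y) := by
          simp; ring
        rw [e1, e2, e3, Real.exp_add]
        ring
      show Real.Gamma (m + 1) * (s ^ (m : ℝ) * Real.exp (-τ.re * s ^ (1:ℝ))) = _
      rw [setIntegral_congr_fun measurableSet_Ioi h3, integral_const_mul,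
        Real.integral_rpow_mul_exp_neg_mul_Ioi (by positivity) hs', Real.rpow_one]
      rw [one_div, Real.inv_rpow hs'.le]
      have e4 : s ^ (2 * (m : ℝ) + 1) = s ^ (m : ℝ) * s ^ ((m : ℝ) + 1) := by
        rw [← Real.rpow_add hs']; congr 1; ring
      rw [e4, neg_mul]
      have e5 : s ^ ((m : ℝ) + 1) ≠ 0 := (Real.rpow_pos_of_pos hs' _).ne'
      field_simp
  have hstep1 : Gamma k * ∫ y in Ioi (0:ℝ), (y : ℂ) ^ (a - 1) * (1 / (τ + y) ^ (2 * m + 2)) =
      ∫ y in Ioi (0:ℝ), ∫ s in Ioi (0:ℝ), F y s := by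
    rw [← integral_const_mul]
    refine setIntegral_congr_fun measurableSet_Ioi (fun y hy => ?_)
    have hy' : 0 < y := hy
    simp only [F]
    rw [integral_const_mul, lap_val k hk0 (τ + y) (by simp; linarith)]
    have e6 : (1 / (τ + (y : ℂ))) ^ k = 1 / (τ + y) ^ (2 * m + 2) := by
      rw [hk, Complex.cpow_natCast, div_pow, one_pow]
    rw [e6]; ring
  have hswap : ∫ y in Ioi (0:ℝ), ∫ s in Ioi (0:ℝ), F y s =
      ∫ s in Ioi (0:ℝ), ∫ y in Ioi (0:ℝ), F y s := integral_integral_swap hFint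
  have hstep2 : ∫ s in Ioi (0:ℝ), ∫ y in Ioi (0:ℝ), F y s =
      ∫ s in Ioi (0:ℝ), Gamma a * ((s : ℂ) ^ (b - 1) * exp (-(τ * s))) := by
    refine setIntegral_congr_fun measurableSet_Ioi (fun s hs => ?_)
    have hs' : 0 < s := hs
    have hs0 : (s : ℂ) ≠ 0 := by exact_mod_cast hs'.ne'
    have e7 : ∀ y ∈ Ioi (0:ℝ), F y s = ((s : ℂ) ^ (k - 1) * exp (-(τ * s))) *
        ((y : ℂ) ^ (a - 1) * exp (-((s : ℂ) * y))) := by
      intro y _
      simp only [F]
      rw [show -((τ + (y : ℂ)) * (s : ℂ)) = -(τ * s) + -(s * y) by ring, Complex.exp_add]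
      ring
    rw [setIntegral_congr_fun measurableSet_Ioi e7, integral_const_mul,
      lap_val a ha0 (s : ℂ) (by simpa using hs')]
    have e8 : (1 / (s : ℂ)) ^ a = (s : ℂ) ^ (-a) := by
      rw [one_div, Complex.inv_cpow _ _ (by
        rw [Complex.arg_ofReal_of_nonneg hs'.le]; exact Real.pi_pos.ne), Complex.cpow_neg]
    have e9 : (s : ℂ) ^ (b - 1) = (s : ℂ) ^ (k - 1) * (s : ℂ) ^ (-a) := by
      rw [← Complex.cpow_add _ _ hs0]; congr 1; rw [hkab]; ring
    rw [e8, e9]; ring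
  rw [hstep2, integral_const_mul, lap_val b hb0 τ hτ] at hswap
  rw [hswap] at hstep1
  rw [div_mul_eq_mul_div, eq_div_iff hGk, mul_comm _ (Gamma k), hstep1]
  ring

open Complex in
theorem kernel_bound (m : ℕ) (L ε y : ℝ) (hm : 1 ≤ m) (hε : 0 ≤ ε) (hy : 0 < y) :
    ‖(y : ℂ) ^ (((m : ℂ) + 1 + L * I) - 1) * (1 / (((ε : ℂ) - I) + y) ^ (2 * m + 2))‖ ≤
      (1 + y ^ 2)⁻¹ := by
  rw [norm_mul, Complex.norm_cpow_eq_rpow_re_of_pos hy, norm_div, norm_one, norm_pow]
  have e1 : (((m : ℂ) + 1 + L * I) - 1).re = (m : ℝ) := by simp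
  have e2 : ‖((ε : ℂ) - I) + y‖ ^ 2 = (ε + y) ^ 2 + 1 := by
    rw [← Complex.normSq_eq_norm_sq, Complex.normSq_apply]
    simp; ring
  rw [e1, show 2 * m + 2 = 2 * (m + 1) by ring, pow_mul, e2, Real.rpow_natCast]
  have h1 : 1 + y ^ 2 ≤ (ε + y) ^ 2 + 1 := by nlinarith
  have h2 : (1 + y ^ 2) ^ (m + 1) ≤ ((ε + y) ^ 2 + 1) ^ (m + 1) :=
    pow_le_pow_left₀ (by positivity) h1 _
  have h3 : y ^ m ≤ (1 + y ^ 2) ^ m := pow_le_pow_left₀ hy.le (by nlinarith [sq_nonneg (y - 1)]) _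
  calc y ^ m * (1 / ((ε + y) ^ 2 + 1) ^ (m + 1)) ≤ (1 + y ^ 2) ^ m * (1 / (1 + y ^ 2) ^ (m + 1)) := by
        apply mul_le_mul h3 _ (by positivity) (by positivity)
        exact one_div_le_one_div_of_le (by positivity) h2
    _ = (1 + y ^ 2)⁻¹ := by
        rw [pow_succ]
        have : (1 + y ^ 2) ≠ 0 := by positivity
        field_simp
        ring

open Complex in
theorem kernel_meas (z : ℂ) (τ : ℂ) (n : ℕ) :
    AEStronglyMeasurable (fun y : ℝ => (y : ℂ) ^ z * (1 / (τ + y) ^ n)) (volume.restrict (Ioi (0:ℝ))) := by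
  apply Measurable.aestronglyMeasurable
  apply Measurable.mul
  · exact Complex.measurable_ofReal.pow_const _
  · fun_prop

open Complex in
theorem kernel_int (m : ℕ) (L : ℝ) (hm : 1 ≤ m) :
    IntegrableOn (fun y : ℝ => (y : ℂ) ^ (((m : ℂ) + 1 + L * I) - 1) * (1 / (-I + y) ^ (2 * m + 2)))
      (Ioi (0:ℝ)) := by
  refine Integrable.mono' (integrable_inv_one_add_sq.integrableOn (s := Ioi (0:ℝ))) (kernel_meas _ _ _) ?_
  refine (ae_restrict_iff' measurableSet_Ioi).2 (Eventually.of_forall fun y hy => ?_)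
  have h := kernel_bound m L 0 y hm le_rfl hy
  simpa using h

open Complex in
theorem G_formula (m : ℕ) (L : ℝ) (hm : 1 ≤ m) :
    ∫ y in Ioi (0:ℝ), (y : ℂ) ^ (((m : ℂ) + 1 + L * I) - 1) * (1 / (-I + y) ^ (2 * m + 2)) =
      Gamma ((m : ℂ) + 1 + L * I) * Gamma ((m : ℂ) + 1 - L * I) / Gamma ((2 * m + 2 : ℕ) : ℂ) *
        I ^ ((m : ℂ) + 1 - L * I) := by
  have hlim1 : Tendsto (fun n : ℕ => ∫ y in Ioi (0:ℝ), (y : ℂ) ^ (((m : ℂ) + 1 + L * I) - 1) *
      (1 / ((((1 / ((n : ℝ) + 1) : ℝ) : ℂ) - I) + y) ^ (2 * m + 2))) atTop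
      (𝓝 (∫ y in Ioi (0:ℝ), (y : ℂ) ^ (((m : ℂ) + 1 + L * I) - 1) * (1 / (-I + y) ^ (2 * m + 2)))) := by
    refine tendsto_integral_of_dominated_convergence (fun y => (1 + y ^ 2)⁻¹)
      (fun n => kernel_meas _ _ _) (integrable_inv_one_add_sq.integrableOn (s := Ioi (0:ℝ))) ?_ ?_
    · intro n
      refine (ae_restrict_iff' measurableSet_Ioi).2 (Eventually.of_forall fun y hy => ?_)
      exact kernel_bound m L _ y hm (by positivity) hy
    · refine (ae_restrict_iff' measurableSet_Ioi).2 (Eventually.of_forall fun y hy => ?_)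
      have h0 : Tendsto (fun n : ℕ => (((1 / ((n : ℝ) + 1) : ℝ) : ℂ) - I) + (y : ℂ)) atTop
          (𝓝 (-I + y)) := by
        have h1 : Tendsto (fun n : ℕ => ((1 / ((n : ℝ) + 1) : ℝ) : ℂ)) atTop (𝓝 ((0:ℝ) : ℂ)) :=
          (Complex.continuous_ofReal.tendsto 0).comp tendsto_one_div_add_atTop_nhds_zero_nat
        have h2 := (h1.sub_const I).add_const (y : ℂ)
        simpa using h2
      have hne : (-I + (y : ℂ)) ^ (2 * m + 2) ≠ 0 := by
        apply pow_ne_zero
        intro h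
        have := congrArg Complex.im h
        simp at this
      exact (tendsto_const_nhds.div (h0.pow _) hne).const_mul _
  have hlim2 : Tendsto (fun n : ℕ => Gamma ((m : ℂ) + 1 + L * I) * Gamma ((m : ℂ) + 1 - L * I) /
      Gamma ((2 * m + 2 : ℕ) : ℂ) * (1 / (((1 / ((n : ℝ) + 1) : ℝ) : ℂ) - I)) ^ ((m : ℂ) + 1 - L * I)) atTop
      (𝓝 (Gamma ((m : ℂ) + 1 + L * I) * Gamma ((m : ℂ) + 1 - L * I) / Gamma ((2 * m + 2 : ℕ) : ℂ) *
        I ^ ((m : ℂ) + 1 - L * I))) := by
    refine Tendsto.const_mul _ ?_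
    have h1 : Tendsto (fun n : ℕ => ((1 / ((n : ℝ) + 1) : ℝ) : ℂ)) atTop (𝓝 ((0:ℝ) : ℂ)) :=
      (Complex.continuous_ofReal.tendsto 0).comp tendsto_one_div_add_atTop_nhds_zero_nat
    have h2 : Tendsto (fun n : ℕ => ((1 / ((n : ℝ) + 1) : ℝ) : ℂ) - I) atTop (𝓝 (-I)) := by
      have := h1.sub_const I
      simpa using this
    have h3 : Tendsto (fun n : ℕ => 1 / (((1 / ((n : ℝ) + 1) : ℝ) : ℂ) - I)) atTop (𝓝 I) := by
      have := (tendsto_const_nhds (x := (1:ℂ))).div h2 (neg_ne_zero.2 Complex.I_ne_zero)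
      have e : 1 / (-I) = I := by
        rw [one_div, inv_neg, Complex.inv_I, neg_neg]
      rwa [e] at this
    have h4 : I ∈ slitPlane := Or.inr (by simp)
    exact ((continuousAt_cpow_const h4).tendsto.comp h3)
  refine tendsto_nhds_unique hlim1 (hlim2.congr fun n => ?_)
  rw [J_formula m L _ (by rw [Complex.sub_re, Complex.ofReal_re, Complex.I_re, sub_zero]; positivity)]

open Complex Pool.Agent.H902R3.PZ in
theorem taskG2 : TaskG2 := by
  intro m L hm hAA
  have hm1 : 1 ≤ m := hm.pos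
  unfold AA at hAA
  have hpi := Real.pi_pos
  have hfac : (0:ℝ) < (2 * m + 1).factorial := by exact_mod_cast Nat.factorial_pos _
  have hc : 2 * ((2 * m + 1).factorial : ℝ) / Real.pi ≠ 0 := by positivity
  have hI0 := (mul_eq_zero.1 hAA).resolve_left hc
  -- the complex integral
  have hint1 := kernel_int m L hm1
  have hint2 := kernel_int m (-L) hm1
  have hF1 := G_formula m L hm1
  have hF2 := G_formula m (-L) hm1
  have hsum : Integrable (fun y : ℝ => (1 / 2 : ℂ) * ((y : ℂ) ^ (((m : ℂ) + 1 + L * I) - 1) * (1 / (-I + y) ^ (2 * m + 2)) +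
      (y : ℂ) ^ (((m : ℂ) + 1 + ((-L : ℝ) : ℂ) * I) - 1) * (1 / (-I + y) ^ (2 * m + 2))))
      (volume.restrict (Ioi (0:ℝ))) := (hint1.add hint2).const_mul _
  have hval : ∫ y in Ioi (0:ℝ), (y : ℝ) ^ m * Real.cos (L * Real.log y) *
      (1 / (1 + (y : ℂ) * I) ^ (2 * m + 2)).re =
      (∫ y in Ioi (0:ℝ), (1 / 2 : ℂ) * ((y : ℂ) ^ (((m : ℂ) + 1 + L * I) - 1) * (1 / (-I + y) ^ (2 * m + 2)) +
      (y : ℂ) ^ (((m : ℂ) + 1 + ((-L : ℝ) : ℂ) * I) - 1) * (1 / (-I + y) ^ (2 * m + 2)))).re := by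
    have h0 := integral_re hsum
    simp only [RCLike.re_eq_complex_re] at h0
    rw [← h0]
    refine setIntegral_congr_fun measurableSet_Ioi (fun y hy => ?_)
    have hy' : 0 < y := hy
    have hy0 : (y : ℂ) ≠ 0 := by exact_mod_cast hy'.ne'
    have e1 : (1 + (y : ℂ) * I) ^ (2 * m + 2) = (-I + y) ^ (2 * m + 2) := by
      have e2 : 1 + (y : ℂ) * I = I * (-I + y) := by
        rw [mul_add, mul_neg, Complex.I_mul_I]; ring
      rw [e2, mul_pow, show 2 * m + 2 = 2 * (m + 1) by ring, pow_mul I, Complex.I_sq,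
        (Odd.add_one hm).neg_one_pow, one_mul]
    have e3 : ∀ l : ℝ, (y : ℂ) ^ (((m : ℂ) + 1 + l * I) - 1) = (y : ℂ) ^ m * Complex.exp ((l * Real.log y : ℝ) * I) := by
      intro l
      rw [show ((m : ℂ) + 1 + l * I) - 1 = (m : ℂ) + l * I by ring, Complex.cpow_add _ _ hy0,
        Complex.cpow_natCast, Complex.cpow_def_of_ne_zero hy0, ← Complex.ofReal_log hy'.le]
      congr 2
      push_cast; ring
    have e4 : (1 / 2 : ℂ) * ((y : ℂ) ^ (((m : ℂ) + 1 + L * I) - 1) * (1 / (-I + y) ^ (2 * m + 2)) +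
      (y : ℂ) ^ (((m : ℂ) + 1 + ((-L : ℝ) : ℂ) * I) - 1) * (1 / (-I + y) ^ (2 * m + 2))) =
        (((y ^ m * Real.cos (L * Real.log y) : ℝ)) : ℂ) * (1 / (1 + (y : ℂ) * I) ^ (2 * m + 2)) := by
      rw [e1, e3 L, e3 (-L)]
      have e5 : Complex.exp ((L * Real.log y : ℝ) * I) + Complex.exp (((-L) * Real.log y : ℝ) * I) =
          2 * (Real.cos (L * Real.log y) : ℂ) := by
        rw [Complex.ofReal_cos, Complex.cos]
        push_cast
        rw [show -(L : ℂ) * (Real.log y : ℂ) * I = -(((L : ℂ) * (Real.log y : ℂ)) * I) by ring]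
        ring_nf
      calc _ = (1 / 2 : ℂ) * (y : ℂ) ^ m * (Complex.exp ((L * Real.log y : ℝ) * I) +
            Complex.exp (((-L) * Real.log y : ℝ) * I)) * (1 / (-I + y) ^ (2 * m + 2)) := by ring
        _ = _ := by rw [e5]; push_cast; ring
    rw [e4, Complex.re_ofReal_mul]
  rw [hval, integral_const_mul, integral_add hint1 hint2, hF1, hF2] at hI0
  -- compute
  obtain ⟨q, hq⟩ := (Odd.add_one hm)
  have hconj : Gamma ((m : ℂ) + 1 - L * I) = (starRingEnd ℂ) (Gamma ((m : ℂ) + 1 + L * I)) := by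
    rw [← Complex.Gamma_conj]
    congr 1
    simp; ring
  have hGne : Gamma ((m : ℂ) + 1 + L * I) ≠ 0 := by
    apply Gamma_ne_zero_of_re_pos
    simp; positivity
  have hIp : ∀ l : ℝ, I ^ ((m : ℂ) + 1 - l * I) = (-1 : ℂ) ^ q * (Real.exp (Real.pi * l / 2) : ℂ) := by
    intro l
    rw [Complex.cpow_def_of_ne_zero Complex.I_ne_zero, Complex.log_I]
    have hmq : (m : ℂ) + 1 = 2 * q := by
      have : ((m + 1 : ℕ) : ℂ) = ((q + q : ℕ) : ℂ) := by rw [hq]
      push_cast at this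
      rw [this]; ring
    rw [hmq]
    rw [show (Real.pi : ℂ) / 2 * I * (2 * (q : ℂ) - l * I) = (q : ℂ) * (Real.pi * I) + (Real.pi * l / 2 : ℂ) * (-(I * I)) by ring,
      Complex.I_mul_I, neg_neg, mul_one, Complex.exp_add, Complex.exp_nat_mul, Complex.exp_pi_mul_I]
    push_cast
    rfl
  have hIp1 := hIp L
  have hIp2 := hIp (-L)
  have hG0 : Gamma ((2 * m + 2 : ℕ) : ℂ) = ((2 * m + 1).factorial : ℂ) := by
    have := Complex.Gamma_nat_eq_factorial (2 * m + 1)
    rw [← this]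
    congr 1
    push_cast; ring
  have hconj2 : Gamma ((m : ℂ) + 1 + ((-L : ℝ) : ℂ) * I) * Gamma ((m : ℂ) + 1 - ((-L : ℝ) : ℂ) * I) =
      Gamma ((m : ℂ) + 1 + L * I) * Gamma ((m : ℂ) + 1 - L * I) := by
    push_cast
    rw [mul_comm]
    congr 2 <;> ring
  rw [hconj2, hIp1, hIp2, hG0, hconj, Complex.mul_conj] at hI0
  set N := Complex.normSq (Gamma ((m : ℂ) + 1 + L * I)) with hN
  have hNpos : 0 < N := Complex.normSq_pos.2 hGne
  have e6 : (1 / 2 : ℂ) * ((N : ℂ) / ((2 * m + 1).factorial : ℂ) * ((-1) ^ q * (Real.exp (Real.pi * L / 2) : ℂ)) +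
      (N : ℂ) / ((2 * m + 1).factorial : ℂ) * ((-1) ^ q * (Real.exp (Real.pi * (-L) / 2) : ℂ))) =
      (((1 / 2) * (N / ((2 * m + 1).factorial : ℝ)) * ((-1) ^ q * (Real.exp (Real.pi * L / 2) +
        Real.exp (Real.pi * (-L) / 2))) : ℝ) : ℂ) := by
    push_cast; ring
  rw [e6, Complex.ofReal_re] at hI0
  have e7 : 0 < Real.exp (Real.pi * L / 2) + Real.exp (Real.pi * (-L) / 2) := by positivity
  have e8 : ((-1 : ℝ) ^ q) ≠ 0 := pow_ne_zero _ (by norm_num)
  have e9 : (1 / 2) * (N / ((2 * m + 1).factorial : ℝ)) ≠ 0 := by positivity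
  exact (mul_ne_zero e9 (mul_ne_zero e8 e7.ne')) hI0

end Pool.Agent.H600R3.PZG2
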